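import Pool.Agent.Helper12.G.R_seed8.W619.PQ.Alg
import Pool.Agent.Helper12.G.R_seed8.W619.PQ.Tr

/-! A curve over the function field of a variety: integrality and linear disjointness. -/

set_option autoImplicit false
set_option linter.overlappingInstances false
set_option linter.unusedSectionVars false

open Polynomial FF IntermediateField IsDedekindDomain

namespace Pool.Agent.W619.TW

open Pool.Agent.W603.LV Pool.Agent.W619.PQ

section

variable {k L : Type*} [Field k] [Field L] [Algebra k L]

/-- `L` is the function field of the product of a curve with function field `F` and a variety with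
function field `M`. -/
structure Cur (M F : IntermediateField k L) : Prop where
  ff : IsFF k F
  tr : ∀ x : F, Transcendental k x → Transcendental M (x : L)
  sup : M ⊔ F = ⊤

/-- The ring generated by `M` and `F`. -/
def RR (M F : IntermediateField k L) : Subalgebra F L := Algebra.adjoin F (M : Set L)

variable {M F : IntermediateField k L}

theorem RR.left {z : L} (hz : z ∈ M) : z ∈ RR M F := Algebra.subset_adjoin hz

theorem RR.right {z : L} (hz : z ∈ F) : z ∈ RR M F := (RR M F).algebraMap_mem ⟨z, hz⟩

theorem RR.mem_span {z : L} (hz : z ∈ RR M F) : z ∈ Submodule.span F (M : Set L) := by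
  have h : (Subalgebra.toSubmodule (RR M F)) = Submodule.span F (M : Set L) := by
    unfold RR
    rw [Algebra.adjoin_eq_span]
    congr 1
    have : (Submonoid.closure (M : Set L)) = M.toSubfield.toSubmonoid := by
      apply le_antisymm
      · rw [Submonoid.closure_le]; exact fun z hz => hz
      · exact fun z hz => Submonoid.subset_closure hz
    rw [this]
    rfl
  rw [← h]
  exact hz

/-- Expansion of the elements of the ring in a basis of `M`. -/
theorem RR.expand {z : L} (hz : z ∈ RR M F) : ∃ (s : Finset (Module.Basis.ofVectorSpaceIndex k M))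
    (β : Module.Basis.ofVectorSpaceIndex k M → F),
    z = ∑ i ∈ s, ((Module.Basis.ofVectorSpace k M i : M) : L) * (β i : L) := by
  classical
  have h := RR.mem_span hz
  let b := Module.Basis.ofVectorSpace k M
  have hle : Submodule.span F (M : Set L) ≤ Submodule.span F (Set.range fun i => (b i : L)) := by
    rw [Submodule.span_le]
    intro m hm
    have h1 : (⟨m, hm⟩ : M) ∈ Submodule.span k (Set.range b) := by rw [b.span_eq]; trivial
    have h2 : ∀ y : M, y ∈ Submodule.span k (Set.range b) →
        (y : L) ∈ Submodule.span F (Set.range fun i => (b i : L)) := by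
      intro y hy
      induction hy using Submodule.span_induction with
      | mem x hx =>
        obtain ⟨i, rfl⟩ := hx
        exact Submodule.subset_span ⟨i, rfl⟩
      | zero => exact Submodule.zero_mem _
      | add x y _ _ hx hy => exact Submodule.add_mem _ hx hy
      | smul c x _ hx =>
        have := Submodule.smul_mem _ (algebraMap k F c) hx
        convert this using 1
        change ((c • x : M) : L) = _
        rw [Algebra.smul_def, Algebra.smul_def]
        rfl
    exact h2 _ h1
  obtain ⟨c, hc⟩ := (Finsupp.mem_span_range_iff_exists_finsupp).1 (hle h)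
  refine ⟨c.support, c, ?_⟩
  rw [← hc, Finsupp.sum]
  refine Finset.sum_congr rfl fun i _ => ?_
  rw [Algebra.smul_def, mul_comm]
  rfl

/-- Every element of `L` is a quotient of elements of the ring. -/
theorem Cur.frac (h : Cur M F) (z : L) : ∃ a ∈ RR M F, ∃ b ∈ RR M F, b ≠ 0 ∧ z = a / b := by
  have hz : z ∈ IntermediateField.adjoin F (M : Set L) := by
    have h1 : (⊤ : IntermediateField k L) ≤
        (IntermediateField.adjoin F (M : Set L)).restrictScalars k := by
      rw [← h.sup, sup_le_iff]
      constructor
      · intro y hy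
        rw [mem_restrictScalars]
        exact subset_adjoin F _ hy
      · intro y hy
        rw [mem_restrictScalars]
        exact (IntermediateField.adjoin F (M : Set L)).algebraMap_mem ⟨y, hy⟩
    exact h1 (by trivial : z ∈ (⊤ : IntermediateField k L))
  rw [IntermediateField.mem_adjoin_iff_div] at hz
  obtain ⟨a, ha, b, hb, rfl⟩ := hz
  by_cases hb0 : b = 0
  · exact ⟨0, zero_mem _, 1, one_mem _, one_ne_zero, by rw [hb0]; simp⟩
  · exact ⟨a, ha, b, hb, hb0, rfl⟩

end

section

variable {k L : Type*} [Field k] [Field L] [Algebra k L] [CharZero k] [IsAlgClosed k]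
  {M F : IntermediateField k L}

/-- The restriction of a place to the smaller field of constants. -/
def rk (w : Place M L) : Place k L where
  ord := w.ord
  ord_zero := w.ord_zero
  ord_mul := w.ord_mul
  ord_add := w.ord_add
  ord_const := fun {c} hc => by
    rw [IsScalarTower.algebraMap_apply k M L]
    exact w.ord_const (by simpa using hc)
  surj := w.surj

theorem ord_M (w : Place M L) {z : L} (hz : z ∈ M) : w.ord z = 0 := by
  by_cases h0 : z = 0
  · rw [h0, w.ord_zero]
  · exact w.ord_const (c := (⟨z, hz⟩ : M)) (fun h => h0 (congrArg Subtype.val h))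

theorem ge_M (w : Place M L) {z : L} (hz : z ∈ M) : Ge w 0 z := Or.inr (ord_M w hz).ge

theorem eq_zero_of_ge_M (w : Place M L) {z : L} (hz : z ∈ M) {e : ℤ} (he : 0 < e)
    (h : Ge w e z) : z = 0 := by
  rcases h with h | h
  · exact h
  · rw [ord_M w hz] at h; omega

/-- The residue principle: coefficients of an element of the ring. -/
theorem res [IsFF k F] (w : Place M L) (q : Place k F) (e : ℕ) (he : 0 < e)
    (hw : ∀ β : F, w.ord (β : L) = e * q.ord β) {ι : Type*} (s : Finset ι) (m : ι → M)
    (hm : LinearIndependent k m) (β : ι → F) (N : ℤ)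
    (h : Ge w (e * (N - 1) + 1) (∑ i ∈ s, (m i : L) * (β i : L))) : ∀ i ∈ s, Ge q N (β i) := by
  classical
  have hge : ∀ (β : F) (N : ℤ), Ge q N β → Ge w (e * N) (β : L) := by
    intro β N h
    rcases h with h | h
    · left; rw [h]; rfl
    · right; rw [hw]; exact mul_le_mul_of_nonneg_left h (by positivity)
  -- a lower bound to start
  have hstart : ∃ N0 : ℤ, N0 ≤ N ∧ ∀ i ∈ s, Ge q N0 (β i) := by
    refine ⟨min N (-∑ i ∈ s, |q.ord (β i)|), min_le_left _ _, fun i hi => Or.inr ?_⟩
    refine (min_le_right _ _).trans ?_
    have h1 := Finset.single_le_sum (f := fun i => |q.ord (β i)|) (fun _ _ => abs_nonneg _) hi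
    have h2 := neg_abs_le (q.ord (β i))
    linarith
  obtain ⟨N0, hN0, hs⟩ := hstart
  obtain ⟨t, ht0, ht⟩ := q.surj
  have key : ∀ N', N0 ≤ N' → N' ≤ N → ∀ i ∈ s, Ge q N' (β i) := by
    intro N' hN'
    induction N', hN' using Int.leInduction with
    | base => exact fun _ => hs
    | succ n hn ih =>
      intro hnN
      have ih := ih (by omega)
      have htn : t ^ (-n) ≠ 0 := zpow_ne_zero _ ht0
      have htord : q.ord (t ^ (-n)) = -n := by rw [q.ord_zpow, ht]; ring
      have hc : ∀ i, ∃ c : k, i ∈ s → Ge q 1 (t ^ (-n) * β i - algebraMap k F c) := by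
        intro i
        by_cases hi : i ∈ s
        · have h1 : Ge q 0 (t ^ (-n) * β i) := by
            have h0 : Ge q (-n) (t ^ (-n)) := Or.inr htord.ge
            have := h0.mul (ih i hi)
            simpa using this
          obtain ⟨c, hc⟩ := Pool.Agent.W603.LV.exists_const q h1
          exact ⟨c, fun _ => hc⟩
        · exact ⟨0, fun h => absurd h hi⟩
      choose c hc using hc
      -- the sum of the residues
      have he1 : (1 : ℤ) ≤ e := by exact_mod_cast he
      have h1 : Ge w 1 (∑ i ∈ s, (m i : L) * ((t ^ (-n) * β i : F) : L)) := by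
        have h2 : ∑ i ∈ s, (m i : L) * ((t ^ (-n) * β i : F) : L) =
            ((t ^ (-n) : F) : L) * ∑ i ∈ s, (m i : L) * (β i : L) := by
          rw [Finset.mul_sum]
          refine Finset.sum_congr rfl fun i _ => ?_
          push_cast; ring
        rw [h2]
        have h3 : Ge w (e * (-n)) ((t ^ (-n) : F) : L) := hge _ _ (Or.inr htord.ge)
        have h4 := h3.mul h
        refine h4.mono ?_
        have : (e : ℤ) * n ≤ e * (N - 1) := mul_le_mul_of_nonneg_left (by omega) (by positivity)
        linarith
      have h2 : Ge w 1 (∑ i ∈ s, (m i : L) * (((t ^ (-n) * β i - algebraMap k F (c i) : F)) : L)) := by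
        refine Ge.sum s _ fun i hi => ?_
        have h3 := hge _ _ (hc i hi)
        have h4 := (ge_M w (m i).2).mul h3
        exact h4.mono (by linarith)
      have h3 : Ge w 1 (((∑ i ∈ s, c i • m i : M) : L)) := by
        have h4 := h1.sub h2
        convert h4 using 1
        rw [← Finset.sum_sub_distrib]
        rw [AddSubmonoidClass.coe_finsetSum]
        refine Finset.sum_congr rfl fun i _ => ?_
        rw [← mul_sub]
        change (c i • (m i : L)) = _
        rw [Algebra.smul_def]
        push_cast
        rw [sub_sub_cancel, mul_comm]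
      have h4 : (∑ i ∈ s, c i • m i : M) = 0 :=
        Subtype.ext (eq_zero_of_ge_M w (Subtype.property _) one_pos h3)
      have h5 := linearIndependent_iff'.1 hm s c h4
      intro i hi
      have h6 := hc i hi
      rw [h5 i hi, map_zero, sub_zero] at h6
      have h7 := Ge.of_mul' (N := n + 1) (m := -n) htn htord (f := β i) (by
        rw [show n + 1 + -n = (1 : ℤ) by ring]; exact h6)
      exact h7
  exact key N hN0 le_rfl

theorem res' [IsFF k F] (w : Place M L) (q : Place k F) (e : ℕ) (he : 0 < e)
    (hw : ∀ β : F, w.ord (β : L) = e * q.ord β) {ι : Type*} (s : Finset ι) (m : ι → M)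
    (hm : LinearIndependent k m) (β : ι → F) (N : ℤ)
    (h : Ge w (e * N) (∑ i ∈ s, (m i : L) * (β i : L))) : ∀ i ∈ s, Ge q N (β i) := by
  refine res w q e he hw s m hm β N (h.mono ?_)
  have he1 : (1 : ℤ) ≤ e := by exact_mod_cast he
  linarith

theorem dvd_ord [IsFF k F] (w : Place M L) (q : Place k F) (e : ℕ) (he : 0 < e)
    (hw : ∀ β : F, w.ord (β : L) = e * q.ord β) {z : L} (hz : z ∈ RR M F) :
    (e : ℤ) ∣ w.ord z := by
  classical
  by_cases hz0 : z = 0
  · rw [hz0, w.ord_zero]; exact dvd_zero _
  obtain ⟨s, β, hs⟩ := RR.expand hz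
  have hb := (Module.Basis.ofVectorSpace k M).linearIndependent
  have hne : ∃ i ∈ s, β i ≠ 0 := by
    by_contra hcon
    push Not at hcon
    apply hz0
    rw [hs]
    refine Finset.sum_eq_zero fun i hi => ?_
    rw [hcon i hi]
    simp
  obtain ⟨i0, hi0, hmin⟩ := Finset.exists_min_image (s.filter fun i => β i ≠ 0)
    (fun i => q.ord (β i)) (by
      obtain ⟨i, hi, h⟩ := hne
      exact ⟨i, Finset.mem_filter.2 ⟨hi, h⟩⟩)
  obtain ⟨hi0s, hi0ne⟩ := Finset.mem_filter.1 hi0
  set N := q.ord (β i0) with hN
  have h1 : Ge w (e * N) z := by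
    rw [hs]
    refine Ge.sum s _ fun i hi => ?_
    have h2 : Ge w (e * N) ((β i : F) : L) := by
      by_cases h0 : β i = 0
      · left; rw [h0]; rfl
      · right
        rw [hw]
        exact mul_le_mul_of_nonneg_left (hmin i (Finset.mem_filter.2 ⟨hi, h0⟩)) (by positivity)
    have h3 := (ge_M w (Module.Basis.ofVectorSpace k M i).2).mul h2
    simpa using h3
  have h2 : ¬ Ge w (e * N + 1) z := by
    intro h
    have h3 := res w q e he hw s _ hb β (N + 1) (by
      rw [← hs]
      simpa using h) i0 hi0s
    have := h3.resolve_left hi0ne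
    omega
  have h3 := h1.resolve_left hz0
  have h4 : ¬ (e * N + 1 ≤ w.ord z) := fun h => h2 (Or.inr h)
  exact ⟨N, by omega⟩

/-- The places are unramified over `F`. -/
theorem Cur.ram_one (h : Cur M F) (w : Place M L) (q : Place k F) (e : ℕ) (he : 0 < e)
    (hw : ∀ β : F, w.ord (β : L) = e * q.ord β) : e = 1 := by
  have := h.ff
  obtain ⟨z, hz0, hz⟩ := w.surj
  obtain ⟨a, ha, b, hb, hb0, rfl⟩ := h.frac z
  have ha0 : a ≠ 0 := by
    rintro rfl
    exact hz0 (zero_div _)
  rw [w.ord_div ha0 hb0] at hz
  have h1 := dvd_sub (dvd_ord w q e he hw ha) (dvd_ord w q e he hw hb)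
  rw [hz] at h1
  have := Int.eq_one_of_dvd_one (by positivity) h1
  exact_mod_cast this

/-- A place of `L` over `M` is trivial on `F` or restricts to a place of `F`. -/
theorem Cur.trichotomy (h : Cur M F) (w : Place M L) : (∀ β : F, w.ord (β : L) = 0) ∨
    ∃ q : Place k F, ∀ β : F, w.ord (β : L) = q.ord β := by
  by_cases h0 : ∀ β : F, w.ord (β : L) = 0
  · exact Or.inl h0
  push Not at h0
  obtain ⟨e, q, he, hq⟩ := exists_over (K := F) (rk w) h0
  have h1 := h.ram_one w q e he hq
  right
  refine ⟨q, fun β => ?_⟩
  have h2 := hq β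
  rw [h1, Nat.cast_one, one_mul] at h2
  exact h2

theorem Cur.isFF (h : Cur M F) : IsFF M L := by
  have := h.ff
  obtain ⟨x, hx⟩ := IsFF.exists_transcendental (k := k) (K := F)
  refine IsFF.of_finite (h.tr x hx) ?_
  -- finitely many algebraic generators
  have hfin := IsFF.finite hx
  obtain ⟨y, hy⟩ := Field.exists_primitive_element k⟮x⟯ F
  let S : IntermediateField M L := M⟮(x : L)⟯
  have halg : IsIntegral S (y : L) :=
    (alg_of_mem F hx (S.restrictScalars k) (mem_adjoin_simple_self M _) y).isIntegral
  have htop : S⟮(y : L)⟯ = ⊤ := by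
    have h1 : (⊤ : IntermediateField k L) ≤ (S⟮(y : L)⟯.restrictScalars M).restrictScalars k := by
      rw [← h.sup, sup_le_iff]
      constructor
      · intro z hz
        exact (S⟮(y : L)⟯.restrictScalars M).algebraMap_mem ⟨z, hz⟩
      · intro z hz
        have h2 : (k⟮x⟯⟮y⟯.restrictScalars k : IntermediateField k F) ≤
            ((S⟮(y : L)⟯.restrictScalars M).restrictScalars k).comap F.val := by
          have h3 : ∀ a ∈ k⟮x⟯, (a : L) ∈ S⟮(y : L)⟯ := by
            intro a ha
            have h4 : k⟮x⟯ ≤ (S.restrictScalars k).comap F.val := by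
              rw [adjoin_simple_le_iff]
              exact mem_adjoin_simple_self M _
            exact S⟮(y : L)⟯.algebraMap_mem ⟨a, h4 ha⟩
          intro a ha
          rw [mem_restrictScalars] at ha
          change (a : L) ∈ S⟮(y : L)⟯
          induction ha using IntermediateField.adjoin_induction with
          | mem a ha =>
            rw [Set.mem_singleton_iff] at ha
            rw [ha]
            exact mem_adjoin_simple_self S _
          | algebraMap a => exact h3 _ a.2
          | add a b _ _ ha hb => exact add_mem ha hb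
          | inv a _ ha => exact inv_mem ha
          | mul a b _ _ ha hb => exact mul_mem ha hb
        exact h2 (show (⟨z, hz⟩ : F) ∈ k⟮x⟯⟮y⟯ by rw [hy]; trivial)
    rw [eq_top_iff]
    intro z _
    exact h1 (by trivial : z ∈ (⊤ : IntermediateField k L))
  have h5 : FiniteDimensional S S⟮(y : L)⟯ := adjoin.finiteDimensional halg
  rw [htop] at h5
  exact Module.Finite.equiv (IntermediateField.topEquiv (F := S) (E := L)).toLinearEquiv

end

end Pool.Agent.W619.TW
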