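import Pool.Agent.Helper12.G.R_seed8.W619.TW.Span
import Pool.Agent.Helper12.G.R_seed8.W619.PQ.Core
import Pool.Agent.Helper12.G.R_seed8.W619.PQ.Dual

/-! Derivations: uniqueness, stability of composita. -/

set_option autoImplicit false
set_option linter.overlappingInstances false
set_option linter.unusedSectionVars false

open Polynomial FF IntermediateField IsDedekindDomain

namespace Pool.Agent.W619.TW

open Pool.Agent.W603.LV Pool.Agent.W619.PQ

section

variable {k K L : Type*} [Field k] [Field K] [Field L] [Algebra k K] [Algebra K L] [Algebra k L]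
  [IsScalarTower k K L] [CharZero k]

/-- A derivation which vanishes on a transcendence basis is zero. -/
theorem der_zero {ι : Type*} (d : Derivation k K L) (x : ι → K) (hx : IsTranscendenceBasis k x)
    (h : ∀ i, d (x i) = 0) (f : K) : d f = 0 := by
  let C : IntermediateField k K :=
    { carrier := {f | d f = 0}
      mul_mem' := fun {a b} ha hb => by
        change d (a * b) = 0
        rw [d.leibniz, show d a = 0 from ha, show d b = 0 from hb, smul_zero, smul_zero, add_zero]
      one_mem' := d.map_one_eq_zero
      add_mem' := fun {a b} ha hb => by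
        change d (a + b) = 0
        rw [map_add, show d a = 0 from ha, show d b = 0 from hb, add_zero]
      zero_mem' := map_zero d
      algebraMap_mem' := fun r => d.map_algebraMap r
      inv_mem' := fun a ha => by
        change d a⁻¹ = 0
        rw [d.leibniz_inv, show d a = 0 from ha, smul_zero] }
  have hle : Algebra.adjoin k (Set.range x) ≤ C.toSubalgebra := by
    rw [Algebra.adjoin_le_iff]
    rintro _ ⟨i, rfl⟩
    exact h i
  have halg := hx.isAlgebraic
  let φ : Algebra.adjoin k (Set.range x) →+* C := (Subalgebra.inclusion hle : _ →+* _)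
  have hf : IsAlgebraic C f :=
    (halg.isAlgebraic f).ringHom_of_comp_eq φ (RingHom.id K)
      (Subalgebra.inclusion_injective hle) (by ext z; rfl)
  have hchar : CharZero C := charZero_of_injective_algebraMap (algebraMap k C).injective
  have key : ∀ p : C[X], d (aeval f p) = (aeval f (derivative p)) • d f := by
    intro p
    induction p using Polynomial.induction_on' with
    | add p q hp hq => rw [map_add, map_add, hp, hq, derivative_add, map_add, add_smul]
    | monomial i a =>
      have ha : d (a : K) = 0 := a.2
      rw [aeval_monomial, derivative_monomial, aeval_monomial, d.leibniz]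
      change (a : K) • d (f ^ i) + f ^ i • d (a : K) = _
      rw [ha, smul_zero, add_zero, d.leibniz_pow, map_mul, map_natCast]
      change _ = ((a : K) * (i : K) * f ^ (i - 1)) • d f
      rw [mul_assoc, mul_smul, mul_smul, Nat.cast_smul_eq_nsmul]
  have h1 := key (minpoly C f)
  rw [minpoly.aeval, map_zero] at h1
  have h2 : aeval f (derivative (minpoly C f)) ≠ 0 :=
    (minpoly.irreducible hf.isIntegral).separable.aeval_derivative_ne_zero (minpoly.aeval _ _)
  exact (smul_eq_zero.1 h1.symm).resolve_left h2

/-- Derivations of `K` and of an extension agree if they agree on a transcendence basis. -/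
theorem der_comp {ι : Type*} (dK : Derivation k K K) (dL : Derivation k L L) (x : ι → K)
    (hx : IsTranscendenceBasis k x)
    (h : ∀ i, dL (algebraMap K L (x i)) = algebraMap K L (dK (x i))) (f : K) :
    dL (algebraMap K L f) = algebraMap K L (dK f) := by
  have h1 := der_zero ((dL.compAlgebraMap K) - (Algebra.linearMap K L).compDer dK) x hx
    (fun i => by
      change dL (algebraMap K L (x i)) - algebraMap K L (dK (x i)) = 0
      rw [h, sub_self]) f
  change dL (algebraMap K L f) - algebraMap K L (dK f) = 0 at h1
  exact sub_eq_zero.1 h1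

/-- The elements of an intermediate field sent into it by a derivation. -/
def stab (D : Derivation k L L) (M : IntermediateField k L) : IntermediateField k L where
  carrier := {z | z ∈ M ∧ D z ∈ M}
  mul_mem' := fun {a b} ha hb => ⟨mul_mem ha.1 hb.1, by
    rw [D.leibniz]
    exact add_mem (mul_mem ha.1 hb.2) (mul_mem hb.1 ha.2)⟩
  one_mem' := ⟨one_mem _, by rw [D.map_one_eq_zero]; exact zero_mem _⟩
  add_mem' := fun {a b} ha hb => ⟨add_mem ha.1 hb.1, by
    rw [map_add]; exact add_mem ha.2 hb.2⟩
  zero_mem' := ⟨zero_mem _, by rw [map_zero]; exact zero_mem _⟩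
  algebraMap_mem' := fun r => ⟨M.algebraMap_mem r, by
    rw [D.map_algebraMap]; exact zero_mem _⟩
  inv_mem' := fun a ha => ⟨inv_mem ha.1, by
    rw [D.leibniz_inv]
    exact mul_mem (neg_mem (pow_mem (inv_mem ha.1) _)) ha.2⟩

theorem stable_iSup {ι : Type*} (D : Derivation k L L) (F : ι → IntermediateField k L)
    (h : ∀ i, ∀ z ∈ F i, D z ∈ F i) : ∀ z ∈ ⨆ i, F i, D z ∈ ⨆ i, F i := by
  intro z hz
  have hle : ⨆ i, F i ≤ stab D (⨆ i, F i) :=
    iSup_le fun i y hy => ⟨le_iSup F i hy, le_iSup F i (h i y hy)⟩
  exact (hle hz).2

end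

section

variable {k L : Type*} [Field k] [Field L] [Algebra k L]

/-- A derivation preserving the valuation ring and logarithmic at a uniformizer is logarithmic. -/
theorem log_of_pres (w : Place k L) (D : Derivation k L L) (hD : Pres w D) {t : L} (ht0 : t ≠ 0)
    (ht : w.ord t = 1) (hDt : w.Reg (D t / t)) (z : L) : w.Reg (D z / z) := by
  by_cases hz : z = 0
  · left; rw [hz, div_zero]
  have hzt : z * t ^ (-w.ord z) ≠ 0 := mul_ne_zero hz (zpow_ne_zero _ ht0)
  have h1 : w.ord (z * t ^ (-w.ord z)) = 0 := by
    rw [w.ord_mul hz (zpow_ne_zero _ ht0), w.ord_zpow, ht]; ring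
  have h2 := der_unit hD h1
  rw [dlog_mul D hz (zpow_ne_zero _ ht0), dlog_zpow D ht0] at h2
  have h3 : Ge w 0 (((-w.ord z : ℤ) : L) * (D t / t)) := by
    have h4 : Ge w 0 (D t / t) := hDt
    simpa using (Ge.intCast (P := w) (-w.ord z)).mul h4
  have h5 : Ge w 0 (D z / z) := by
    have := h2.sub h3
    rwa [add_sub_cancel_right] at this
  exact h5

end

end Pool.Agent.W619.TW
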