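import Pool.Agent.Helper12.G.R_seed8.W619.TW.Int
import Pool.Agent.Helper12.G.R_seed8.W619.PQ.Log

/-! A curve over the function field of a variety: derivations preserving the valuation rings. -/

set_option autoImplicit false
set_option linter.overlappingInstances false
set_option linter.unusedSectionVars false

open Polynomial FF IntermediateField IsDedekindDomain

namespace Pool.Agent.W619.TW

open Pool.Agent.W603.LV Pool.Agent.W619.PQ

section

variable {M L : Type*} [Field M] [Field L] [Algebra M L] [CharZero M] [IsFF M L]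

theorem adjoin_reg (w : Place M L) {x : L} (hx : w.Reg x) {z : L} (hz : z ∈ Algebra.adjoin M {x}) :
    w.Reg z := by
  induction hz using Algebra.adjoin_induction with
  | mem a ha => rw [Set.mem_singleton_iff] at ha; rw [ha]; exact hx
  | algebraMap r => exact w.reg_const r
  | add a b _ _ ha hb => exact w.reg_add ha hb
  | mul a b _ _ ha hb => exact w.reg_mul ha hb

theorem integral_reg (w : Place M L) {x : L} (hx : w.Reg x) {z : L}
    (hz : IsIntegral (Algebra.adjoin M {x}) z) : w.Reg z :=
  w.reg_of_isIntegral (A := Algebra.adjoin M {x}) (fun a => adjoin_reg w hx a.2) hz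

/-- The valuation ring is a localization of the integral closure of `M[x]`. -/
theorem exists_localize (w : Place M L) {x : L} (hx : Transcendental M x) (hxr : w.Reg x) {z : L}
    (hz : w.Reg z) : ∃ n d : L, IsIntegral (Algebra.adjoin M {x}) n ∧
      IsIntegral (Algebra.adjoin M {x}) d ∧ d ≠ 0 ∧ w.ord d = 0 ∧ z * d = n := by
  open scoped algebraAdjoinAdjoin in
  classical
  let A := Algebra.adjoin M {x}
  let e := Polynomial.algEquivOfTranscendental M x hx
  have hpid : IsPrincipalIdealRing A := IsPrincipalIdealRing.of_surjective e.toRingEquiv e.surjective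
  have hfin := IsFF.finite hx
  have hchar : CharZero M⟮x⟯ := charZero_of_injective_algebraMap (algebraMap M M⟮x⟯).injective
  have hsep : Algebra.IsSeparable M⟮x⟯ L := inferInstance
  let B := integralClosure A L
  have : IsDedekindDomain B := integralClosure.isDedekindDomain A M⟮x⟯ L
  have : IsFractionRing B L := integralClosure.isFractionRing_of_finite_extension M⟮x⟯ L
  obtain ⟨P, hP⟩ := exists_placeOf_eq (B := B) w (fun b => integral_reg (z := (b : L)) w hxr b.2)
  by_cases hz0 : z = 0
  · exact ⟨0, 1, isIntegral_zero, isIntegral_one, one_ne_zero, w.ord_one, by rw [hz0]; ring⟩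
  have h1 : 0 ≤ (placeOf (k := M) (L := L) P).ord z := by
    rw [hP]; exact (w.reg_iff hz0).1 hz
  rw [placeOf_nonneg P hz0] at h1
  obtain ⟨n, d, hnd⟩ := P.exists_primeCompl_mul_eq_of_integer z h1
  have hd := placeOf_red_eq_zero (k := M) (L := L) P (d : B)
  have hd2 : ¬ (placeOf (k := M) (L := L) P).red (algebraMap B L d) = 0 := fun h => d.2 (hd.1 h)
  rw [Place.red_eq_zero_iff _ (placeOf_reg P _)] at hd2
  push Not at hd2
  rw [hP] at hd2
  have hreg : w.Reg (algebraMap B L d) := integral_reg (z := ((d : B) : L)) w hxr (d : B).2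
  refine ⟨algebraMap B L n, algebraMap B L d, n.2, (d : B).2, hd2.1, ?_, hnd⟩
  have := (w.reg_iff hd2.1).1 hreg
  omega

/-- An element regular at all places where `x` is regular is integral over `M[x]`. -/
theorem integral_of_reg {x : L} (hx : Transcendental M x) {z : L}
    (hz : ∀ w : Place M L, w.Reg x → w.Reg z) : IsIntegral (Algebra.adjoin M {x}) z := by
  open scoped algebraAdjoinAdjoin in
  classical
  let A := Algebra.adjoin M {x}
  let e := Polynomial.algEquivOfTranscendental M x hx
  have hpid : IsPrincipalIdealRing A := IsPrincipalIdealRing.of_surjective e.toRingEquiv e.surjective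
  have hfin := IsFF.finite hx
  have hchar : CharZero M⟮x⟯ := charZero_of_injective_algebraMap (algebraMap M M⟮x⟯).injective
  have hsep : Algebra.IsSeparable M⟮x⟯ L := inferInstance
  let B := integralClosure A L
  have : IsDedekindDomain B := integralClosure.isDedekindDomain A M⟮x⟯ L
  have : IsFractionRing B L := integralClosure.isFractionRing_of_finite_extension M⟮x⟯ L
  have key : z ∈ (algebraMap B L).range := by
    apply HeightOneSpectrum.mem_integers_of_valuation_le_one
    intro P
    by_cases hz0 : z = 0
    · rw [hz0, map_zero]; exact zero_le_one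
    rw [← placeOf_nonneg (k := M) (L := L) P hz0]
    have h1 : (placeOf (k := M) (L := L) P).Reg x :=
      placeOf_reg (k := M) (L := L) P
        (algebraMap A B ⟨x, Algebra.self_mem_adjoin_singleton M x⟩)
    exact (Place.reg_iff _ hz0).1 (hz _ h1)
  obtain ⟨b, rfl⟩ := key
  exact b.2

end

section

variable {k L : Type*} [Field k] [Field L] [Algebra k L] [CharZero k] [IsAlgClosed k]
  {M F : IntermediateField k L}

theorem charZero_M : CharZero M := charZero_of_injective_algebraMap (algebraMap k M).injective

theorem exists_reg_transcendental [IsFF k F] (w : Place M L) :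
    ∃ x : F, Transcendental k x ∧ w.Reg (x : L) := by
  obtain ⟨x, hx⟩ := IsFF.exists_transcendental (k := k) (K := F)
  by_cases h : w.Reg (x : L)
  · exact ⟨x, hx, h⟩
  · refine ⟨x⁻¹, fun h' => hx (by simpa using h'.inv), ?_⟩
    unfold Place.Reg at h
    push Not at h
    right
    change 0 ≤ w.ord ((x : L)⁻¹)
    rw [w.ord_inv]
    omega

/-- The coefficients of an element of the ring which is regular at `w`. -/
theorem Cur.expand_reg (h : Cur M F) (w : Place M L) {z : L} (hz : z ∈ RR M F) (hzr : w.Reg z) :
    ∃ (s : Finset (Module.Basis.ofVectorSpaceIndex k M))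
      (β : Module.Basis.ofVectorSpaceIndex k M → F),
      z = ∑ i ∈ s, ((Module.Basis.ofVectorSpace k M i : M) : L) * (β i : L) ∧
      ∀ i ∈ s, w.Reg (β i : L) := by
  have := h.ff
  obtain ⟨s, β, hs⟩ := RR.expand hz
  refine ⟨s, β, hs, ?_⟩
  rcases h.trichotomy w with h1 | ⟨q, hq⟩
  · exact fun i _ => Or.inr (h1 _).ge
  · intro i hi
    have hb := (Module.Basis.ofVectorSpace k M).linearIndependent
    have h2 := res' w q 1 one_pos (fun β => by rw [hq]; simp) s _ hb β 0 (by
      rw [← hs, mul_zero]; exact hzr) i hi
    rcases h2 with h2 | h2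
    · left; rw [h2]; rfl
    · right; rw [hq]; exact h2

/-- A derivation which preserves `M` and the valuation ring of `F` preserves the valuation
ring of `L`. -/
theorem Cur.pres (h : Cur M F) (w : Place M L) (D : Derivation k L L) (hM : ∀ z ∈ M, D z ∈ M)
    (hF : ∀ β : F, w.Reg (β : L) → w.Reg (D (β : L))) : Pres (rk w) D := by
  classical
  have hff := h.ff
  have hL := h.isFF
  have hchar : CharZero M := charZero_M
  obtain ⟨x, hx, hxr⟩ := exists_reg_transcendental (F := F) w
  have hint : ∀ n : L, IsIntegral (Algebra.adjoin M {(x : L)}) n → w.Reg (D n) := by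
    intro n hn
    have h1 := h.integral_mem hx hn
    obtain ⟨s, β, hs, hβ⟩ := h.expand_reg w h1 (integral_reg w hxr hn)
    rw [hs, map_sum]
    refine Ge.sum (N := 0) s _ fun i hi => ?_
    rw [D.leibniz, smul_eq_mul, smul_eq_mul]
    refine Ge.add ?_ ?_
    · have h2 : Ge w 0 (D (β i : L)) := hF _ (hβ i hi)
      simpa using (ge_M w (Module.Basis.ofVectorSpace k M i).2).mul h2
    · have h2 : Ge w 0 (β i : L) := hβ i hi
      simpa using h2.mul (ge_M w (hM _ (Module.Basis.ofVectorSpace k M i).2))
  intro z hz
  obtain ⟨n, d, hn, hd, hd0, hdord, hzd⟩ := exists_localize w (h.tr x hx) hxr hz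
  have h1 : D z = (D n - z * D d) * d⁻¹ := by
    rw [← hzd, D.leibniz, smul_eq_mul, smul_eq_mul]
    field_simp
    ring
  have hz' : Ge w 0 z := hz
  have hn' : Ge w 0 (D n) := hint n hn
  have hd' : Ge w 0 (D d) := hint d hd
  have hdi : Ge w 0 d⁻¹ := Or.inr (by rw [w.ord_inv, hdord]; simp)
  have h2 : Ge w 0 (D z) := by
    rw [h1]
    have h3 : Ge w 0 (z * D d) := by simpa using hz'.mul hd'
    simpa using (hn'.sub h3).mul hdi
  exact h2

end

end Pool.Agent.W619.TW
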