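import Pool.Agent.Helper12.G.R_seed8.W619.PL.LDefs

/-! Definitions: sections of `m (K_X + D) + j A`, pseudo-effectivity, numerical dimension, for
function fields with a set of boundary places. -/

set_option autoImplicit false
set_option linter.overlappingInstances false
set_option linter.unusedSectionVars false

universe u v

open FF Pool.Agent.W619.PQ

namespace Pool.Agent.W619.TW

section

variable {k : Type u} {K : Type v} [Field k] [Field K] [Algebra k K]

/-- `f` is `0`, or its order along `v` is at least `j` times the order of some nonzero `s ∈ S`: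
`f` is a local section along `v` of `j A`, where `A` is the divisor generated by `S`. -/
def Dom (v : Place k K) (S : Finset K) (j : ℕ) (f : K) : Prop :=
  f = 0 ∨ ∃ s ∈ S, s ≠ 0 ∧ (j : ℤ) * v.ord s ≤ v.ord f

variable (k K)

/-- `ω` is a section of `m (K_X + D) + j A`: an `m`-fold pluricanonical form with, locally along
each divisor `v`, values in `j A` on the vector fields which are regular along `v`
(logarithmic along `v`, if `v` belongs to the boundary). -/
def IsSec (n : ℕ) (Bd : Place k K → Prop) (S : Finset K) (m j : ℕ)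
    (ω : (Fin n → Derivation k K K) → K) : Prop :=
  IsPluriForm k K n m ω ∧
  (∀ v : Place k K, IsDivisorial v n → ¬ Bd v → ∀ D : Fin n → Derivation k K K,
    (∀ l, ∀ f, v.Reg f → v.Reg (D l f)) → Dom v S j (ω D)) ∧
  (∀ v : Place k K, IsDivisorial v n → Bd v → ∀ D : Fin n → Derivation k K K,
    (∀ l, ∀ f, v.Reg (D l f / f)) → Dom v S j (ω D))

/-- `K_X + D` is pseudo-effective: there is a divisor `A` (generated by a finite set `S` of
functions) such that for every `N`, some multiple of `N (K_X + D) + A` has a nonzero section. -/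
def IsPsef (n : ℕ) (Bd : Place k K → Prop) : Prop :=
  ∃ S : Finset K, ∀ N : ℕ, ∃ j : ℕ, 1 ≤ j ∧ ∃ ω : (Fin n → Derivation k K K) → K,
    IsSec k K n Bd S (j * N) j ω ∧ ∃ D, ω D ≠ 0

/-- The Kodaira dimension of `K_X + D` is not `-∞`: some positive multiple has a nonzero
section. -/
def IsEff (n : ℕ) (Bd : Place k K → Prop) : Prop :=
  ∃ m : ℕ, 1 ≤ m ∧ ∃ ω : (Fin n → Derivation k K K) → K,
    IsSec k K n Bd {1} m 0 ω ∧ ∃ D, ω D ≠ 0

end

end Pool.Agent.W619.TW
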